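import Pool.Agent.ASD.Stmts4
import Pool.Agent.Helper25_ASD.LBD
import Pool.Agent.Helper13_ASO.PrB
import Pool.Agent.Helper89_ASO.LBU

/-! Squad ASD, row PSC: the sections of the local blocks. -/

open scoped BigOperators

noncomputable section

namespace Pool.Agent.PP.SD.H92

open Pool.Agent.Helper51_AWC Pool.Agent.Helper79_WRA Pool.Agent.PP Pool.Agent.PP.KF
open Pool.Agent.PP.K9 Pool.Agent.PP.K9.H97 Pool.Agent.PP.H75 Pool.Agent.PP.T3
open Pool.Agent.PP.SO Pool.Agent.PP.SD Pool.Agent.PP.T3.H88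

attribute [local instance] Ideal.Quotient.field

section tools

variable {F G : Type} [Field F] [Group G]

/-- uniqueness of the block over `g` -/
theorem uniq [Finite G] {ℓ : ℕ} [Fact ℓ.Prime] (hF : GoodF ℓ F) {g : G → F} {V H : Subgroup G}
    (hV : IsPGroup ℓ V) (hVC : V ≤ H) (hg : g ≠ 0) {b b' : G → F} (hb : Bx H b) (hb' : Bx H b')
    (h1 : mulF (br V b) g = g) (h2 : mulF (br V b') g = g) : b = b' := by
  rcases hb.dich hb' with h | h
  · exact h
  · exfalso
    apply hg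
    have h3 := SO.H89.br_mul' hF hV hVC hb.ix hb'.ix
    rw [h, br_zero] at h3
    calc g = mulF (br V b) (mulF (br V b') g) := by rw [h2, h1]
      _ = mulF (mulF (br V b) (br V b')) g := (mulF_assoc _ _ _).symm
      _ = 0 := by rw [← h3, mulF_zero_left]

/-- the centraliser of `z ∈ X` in `X` -/
def cuE {X : Subgroup G} (z : X) : Cu z ≃* (X ⊓ Cu (z : G) : Subgroup G) where
  toFun t := ⟨((t : X) : G), t.1.2, Subgroup.mem_centralizer_singleton_iff.2
    (congrArg Subtype.val (Subgroup.mem_centralizer_singleton_iff.1 t.2))⟩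
  invFun t := ⟨⟨(t : G), t.2.1⟩, Subgroup.mem_centralizer_singleton_iff.2
    (Subtype.ext (Subgroup.mem_centralizer_singleton_iff.1 t.2.2))⟩
  left_inv _ := rfl
  right_inv _ := rfl
  map_mul' _ _ := rfl

end tools

/-- PSC -/
theorem psc : PscStmt := by
  intro ℓ _ M _ hM _ V₀ G _ _ _ _ E₀ hFq B hB W z hz hzl β hβ hund
  have hF : GoodF ℓ (FF M) := H50.fld ℓ Fact.out M hM
  have hL := hB.ld
  have hVX : B.i.range ≤ B.C W := by
    rintro _ ⟨v, rfl⟩
    refine Subgroup.mem_centralizer_iff.2 ?_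
    rintro _ ⟨w, _, rfl⟩
    rw [← map_mul, ← map_mul, mul_comm]
  have hCX : Subgroup.centralizer (B.i.range : Set G) ≤ B.C W := by
    refine Subgroup.centralizer_le ?_
    rintro _ ⟨w, _, rfl⟩
    exact ⟨w, rfl⟩
  obtain ⟨hL', -, -⟩ := SD.H25.lbd ℓ M hM V₀ G E₀ hFq B hB W
  have hyl : El ℓ (⟨z, hz⟩ : B.C W) := by
    obtain ⟨n, hn⟩ := hzl
    exact ⟨n, Subtype.ext hn⟩
  have hb : Bx (Cu (⟨z, hz⟩ : B.C W)) (fun t : B.C W => β t) := by
    refine ⟨?_, H20.IsBlk_equiv (cuE (⟨z, hz⟩ : B.C W)) hβ.blk⟩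
    intro x hx
    apply hβ.supp
    intro h
    apply hx
    rw [Subgroup.mem_centralizer_singleton_iff]
    exact Subtype.ext (Subgroup.mem_centralizer_singleton_iff.1 h.2)
  have heb : mulF (fun t : Cu (⟨z, hz⟩ : B.C W) => B.b W t) (fun t : Cu (⟨z, hz⟩ : B.C W) => β t) =
      fun t : Cu (⟨z, hz⟩ : B.C W) => β t := by
    have h1 := H20.mulF_equiv (cuE (⟨z, hz⟩ : B.C W))
      (fun t : (B.C W ⊓ Cu z : Subgroup G) => B.b W t)
      (fun t : (B.C W ⊓ Cu z : Subgroup G) => β t)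
    rw [hund] at h1
    exact h1
  obtain ⟨z', hz'V, hz'L⟩ := SO.H13.pair_conj T3.H3.dug hM hL' hyl hb heb
  obtain ⟨v, hv⟩ := hz'V
  have hv' : B.i v = (z' : G)⁻¹ * z * z' := hv
  have hzz : z = (z' : G) * B.i v * (z' : G)⁻¹ := by
    rw [hv']
    group
  refine ⟨z', z'.2, v, hzz, ?_⟩
  -- the local block
  obtain ⟨b', hb'⟩ : ∃ b', b' = cj (z' : G)⁻¹ β := ⟨_, rfl⟩
  have hlb := hB.lb (W ⊔ Subgroup.zpowers v)
  have hmem : ∀ x, x ∈ Subgroup.centralizer (((W ⊔ Subgroup.zpowers v).map B.i : Subgroup G) :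
      Set G) ↔ (z' : G)⁻¹⁻¹ * x * (z' : G)⁻¹ ∈ B.C W ⊓ Cu z := by
    intro x
    have h1 : x ∈ Subgroup.centralizer (((W ⊔ Subgroup.zpowers v).map B.i : Subgroup G) :
        Set G) ↔ x ∈ B.C W ∧ x ∈ Cu (B.i v) := by
      constructor
      · intro h
        rw [Subgroup.mem_centralizer_iff] at h
        constructor
        · refine Subgroup.mem_centralizer_iff.2 ?_
          rintro _ ⟨w, hw, rfl⟩
          exact h _ ⟨w, Subgroup.mem_sup_left hw, rfl⟩
        · rw [Subgroup.mem_centralizer_singleton_iff]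
          exact (h _ ⟨v, Subgroup.mem_sup_right (Subgroup.mem_zpowers v), rfl⟩).symm
      · rintro ⟨h1, h2⟩
        have h3 : W ⊔ Subgroup.zpowers v ≤ (Cu x).comap B.i := by
          rw [sup_le_iff]
          constructor
          · intro w hw
            rw [Subgroup.mem_comap, Subgroup.mem_centralizer_singleton_iff]
            exact Subgroup.mem_centralizer_iff.1 h1 _ ⟨w, hw, rfl⟩
          · rw [Subgroup.zpowers_le, Subgroup.mem_comap, Subgroup.mem_centralizer_singleton_iff]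
            exact (Subgroup.mem_centralizer_singleton_iff.1 h2).symm
        refine Subgroup.mem_centralizer_iff.2 ?_
        rintro _ ⟨w, hw, rfl⟩
        exact Subgroup.mem_centralizer_singleton_iff.1 (Subgroup.mem_comap.1 (h3 hw))
    rw [h1, inv_inv, Subgroup.mem_inf]
    have h2 : (z' : G) * x * (z' : G)⁻¹ ∈ B.C W ↔ x ∈ B.C W := by
      constructor
      · intro h
        have h3 := (B.C W).mul_mem ((B.C W).mul_mem ((B.C W).inv_mem z'.2) h) z'.2
        have e : (z' : G)⁻¹ * ((z' : G) * x * (z' : G)⁻¹) * z' = x := by group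
        rwa [e] at h3
      · intro h
        exact (B.C W).mul_mem ((B.C W).mul_mem z'.2 h) ((B.C W).inv_mem z'.2)
    have h3 : (z' : G) * x * (z' : G)⁻¹ ∈ Cu z ↔ x ∈ Cu (B.i v) := by
      rw [hzz, SO.H13.mem_Cu_conj]
      have e : (z' : G)⁻¹ * ((z' : G) * x * (z' : G)⁻¹) * z' = x := by group
      rw [e]
    rw [h2, h3]
  have hbx : Bx (Subgroup.centralizer (((W ⊔ Subgroup.zpowers v).map B.i : Subgroup G) :
      Set G)) b' := by
    rw [hb']
    exact H62.bx_cj hmem hβ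
  have hVle : B.i.range ≤ Subgroup.centralizer
      (((W ⊔ Subgroup.zpowers v).map B.i : Subgroup G) : Set G) := by
    rintro _ ⟨w, rfl⟩
    refine Subgroup.mem_centralizer_iff.2 ?_
    rintro _ ⟨w', _, rfl⟩
    rw [← map_mul, ← map_mul, mul_comm]
  have hgam : mulF (br B.i.range b') B.g = B.g := by
    have h0 := hz'L.gam
    have h1 : br (B.i.range.subgroupOf (B.C W)) (cj z'⁻¹ (fun t : B.C W => β t)) =
        fun t : B.C W => br B.i.range b' t := by
      funext t
      by_cases ht : (t : G) ∈ Subgroup.centralizer (B.i.range : Set G)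
      · rw [H66.br_of_mem ht, H66.br_of_mem ((cent_sub hVX t).2 ht), hb']
        rfl
      · rw [H66.br_of_not_mem ht, H66.br_of_not_mem (fun h => ht ((cent_sub hVX t).1 h))]
    rw [h1, ← mulF_res (B.C W) B.g (fun x hx => H66.br_of_not_mem (fun h => hx (hCX h)))] at h0
    exact eq_of_res (mulF_supp (B.C W) (fun x hx => H66.br_of_not_mem (fun h => hx (hCX h)))
      (fun x hx => hL.gam.supp x (fun h => hx (hCX h)))) (fun x hx => hL.gam.supp x
        (fun h => hx (hCX h))) h0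
  have hfin : b' = B.b (W ⊔ Subgroup.zpowers v) :=
    uniq hF hL.tp.pg hVle hL.gam.ne hbx hlb.blk hgam hlb.gam
  rw [← hfin, hb']
  exact (cj_cj_inv _ _).symm

end Pool.Agent.PP.SD.H92
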