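import Pool.Agent.ASD.Stmts5
import Pool.Agent.ASD.Stmts3
import Pool.Agent.Helper90_ASO.CPG

/-!
# Squad ASD, row T5C: the sums `AX5` for the difference of two systems of numbers `U`
-/

open scoped BigOperators

noncomputable section

namespace Pool.Agent.PP.SD.H92

open Pool.Agent.Helper51_AWC Pool.Agent.Helper79_WRA Pool.Agent.PP Pool.Agent.PP.KF
open Pool.Agent.PP.K9 Pool.Agent.PP.K9.H97 Pool.Agent.PP.H75 Pool.Agent.PP.T3 Pool.Agent.PP.SO
open Pool.Agent.PP.SO.H90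

attribute [local instance] Ideal.Quotient.field

theorem t5c (tfv : TfvStmt) (cjd : CjdStmt) (dix : DixStmt) : T5cStmt := by
  intro ℓ _ M _ hM hℓ V₀ G G' H _ _ _ _ _ _ _ _ E₀ A₁ A₂ hDx B B' BH hB hB' hBH n m r hr hn hPE
    ρ₁ ρ₂ x₁ x₂ c d hc hd hc1 hd1 F₁₃ F₁₂ K h1 h2 hL1 hL2 hρ hFY
  classical
  have hfin : Fintype V₀ := Fintype.ofFinite _
  have hp : ℓ.Prime := Fact.out
  have hl0 : (ℓ : ℂ) ≠ 0 := by exact_mod_cast hp.ne_zero
  have hlq : (ℓ : ℚ) ≠ 0 := by exact_mod_cast hp.ne_zero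
  have hFq := hDx.toFq
  obtain ⟨dA, -, dC, -, -, -, dE⟩ := dix ℓ V₀ E₀ A₁ A₂ hDx
  have hkc : ((kE E₀ c : ℂ))⁻¹ ∈ RM M := inv_nat_RM hp hM (dC c hc hc1).2.2.2.1
  have hkd : ((kE E₀ d : ℂ))⁻¹ ∈ RM M := inv_nat_RM hp hM (dC d hd hd1).2.2.2.1
  -- the sum for one `σ`
  have hfinV : Finite (MulAut V₀) := by
    refine Finite.of_injective (fun (σ : MulAut V₀) (v : V₀) => σ v) ?_
    intro σ τ h
    ext v
    exact congrFun h v
  have key : ∀ σ ∈ {σ : MulAut V₀ | σ ∈ E₀ ∧ c * σ d ≠ 1},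
      (∑ᶠ w ∈ {w : V₀ | w ∈ A₂ ∧ w ≠ 1}, (B.U (Subgroup.zpowers (c * σ d * w)) : ℚ) *
        T5 BH m (c * σ d) w σ F₁₂) -
      (∑ᶠ w ∈ {w : V₀ | w ∈ A₂ ∧ w ≠ 1}, (B'.U (Subgroup.zpowers (c * σ d * w)) : ℚ) *
        T5 BH m (c * σ d) w σ F₁₂) ∈ RM M := by
    rintro σ ⟨hσ, hκ1⟩
    have hκA : c * σ d ∈ A₁ := A₁.mul_mem hc (hDx.s1 σ hσ d hd)
    set κ := c * σ d with hκ
    have hκ2 : κ ∉ A₂ := by
      intro h
      apply hκ1
      have : κ ∈ A₁ ⊓ A₂ := ⟨hκA, h⟩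
      rw [hDx.ds] at this
      exact Subgroup.mem_bot.1 this
    have hRw : ∀ w ∈ A₂, w ≠ 1 → Rw E₀ (Subgroup.zpowers (κ * w)) := fun w hw hw1 =>
      dA _ ((dE κ hκA hκ1).1 w hw hw1).1
    set u : V₀ → ℚ := fun w => if w = 1 then 0 else
      (B.U (Subgroup.zpowers (κ * w)) - B'.U (Subgroup.zpowers (κ * w))) / ℓ with hu
    have hu1 : ∀ w ∈ A₂, u w ∈ SOR.Rl ℓ := by
      intro w hw
      by_cases hw1 : w = 1
      · rw [hu]
        simp only [hw1, if_true]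
        exact zero_mem _
      · obtain ⟨q, hq, e⟩ := hB.un _ (hRw w hw hw1)
        obtain ⟨q', hq', e'⟩ := hB'.un _ (hRw w hw hw1)
        have : u w = q - q' := by
          rw [hu]
          simp only [hw1, if_false]
          rw [e, e']
          field_simp
          ring
        rw [this]
        exact sub_mem hq hq'
    have hu2 : ∀ τ ∈ St E₀ A₁, ∀ w ∈ A₂, u (τ w) = u w := by
      rintro τ ⟨hτ, hτ1⟩ w hw
      by_cases hw1 : w = 1
      · rw [hw1, map_one]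
      · have hτw : τ w ≠ 1 := fun h => hw1 (by
          have := congrArg τ.symm h
          rwa [MulEquiv.symm_apply_apply, map_one] at this)
        have e0 : Subgroup.zpowers (κ * τ w) = (Subgroup.zpowers (κ * w)).map τ.toMonoidHom := by
          rw [MonoidHom.map_zpowers]
          congr 1
          show κ * τ w = τ (κ * w)
          rw [map_mul, hτ1 κ hκA]
        have e1 : B.U (Subgroup.zpowers (κ * τ w)) = B.U (Subgroup.zpowers (κ * w)) := by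
          obtain ⟨t, ht, hact⟩ := hB.sur τ hτ
          rw [e0]
          exact ((cjd ℓ M hM hℓ V₀ G E₀ hFq B hB.toSb τ hτ t ht hact
            (Subgroup.zpowers (κ * w))).2.2.2.2.2 hB (hRw w hw hw1)).2.2
        have e2 : B'.U (Subgroup.zpowers (κ * τ w)) = B'.U (Subgroup.zpowers (κ * w)) := by
          obtain ⟨t, ht, hact⟩ := hB'.sur τ hτ
          rw [e0]
          exact ((cjd ℓ M hM hℓ V₀ G' E₀ hFq B' hB'.toSb τ hτ t ht hact
            (Subgroup.zpowers (κ * w))).2.2.2.2.2 hB' (hRw w hw hw1)).2.2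
        rw [hu]
        simp only [hw1, hτw, if_false]
        rw [e1, e2]
    have h := tfv ℓ M hM hℓ V₀ H E₀ A₁ A₂ hDx BH hBH n m r hr hn hPE ρ₁ ρ₂ x₁ x₂ c d F₁₃ F₁₂ K
      h1 h2 hL1 hL2 hρ hFY κ σ hκ2 hσ u hu1 hu2
    have hfs : ({w : V₀ | w ∈ A₂ ∧ w ≠ 1}).Finite := Set.toFinite _
    rw [← finsum_mem_sub_distrib _ _ hfs]
    have e : (∑ᶠ w ∈ {w : V₀ | w ∈ A₂ ∧ w ≠ 1},
        (((B.U (Subgroup.zpowers (κ * w)) : ℚ) : ℂ) * T5 BH m κ w σ F₁₂ -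
          ((B'.U (Subgroup.zpowers (κ * w)) : ℚ) : ℂ) * T5 BH m κ w σ F₁₂)) =
        (ℓ : ℂ) * ∑ᶠ w ∈ {w : V₀ | w ∈ A₂ ∧ w ≠ 1}, (u w : ℂ) * T5 BH m κ w σ F₁₂ := by
      rw [mul_finsum_mem]
      refine finsum_mem_congr rfl fun w hw => ?_
      have hw1 : w ≠ 1 := hw.2
      have : ((u w : ℚ) : ℂ) = (((B.U (Subgroup.zpowers (κ * w)) : ℚ) : ℂ) -
          ((B'.U (Subgroup.zpowers (κ * w)) : ℚ) : ℂ)) / ℓ := by
        rw [hu]
        simp only [hw1, if_false]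
        push_cast
        ring
      rw [this]
      field_simp
    rw [e]
    exact h
  have hfS : ({σ : MulAut V₀ | σ ∈ E₀ ∧ c * σ d ≠ 1}).Finite := Set.toFinite _
  unfold AX5
  rw [← mul_sub, ← finsum_mem_sub_distrib _ _ hfS]
  refine mul_mem ?_ (finsum_mem_RM fun σ hσ => ?_)
  · rw [mul_inv]
    exact mul_mem hkc hkd
  · exact key σ hσ

end Pool.Agent.PP.SD.H92
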